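import Pool.Agent.H38.Gal.Red

/-!
The art gallery problem for semialgebraic galleries is hard for the exists-forall class, already
with two guards.
-/

namespace Pool.Agent.Results.MP_42f8a6_lc.Hard

open Pool.Agent.H38.NP Pool.Agent.H38.ER Pool.Agent.H38.Gal

theorem result : QHardOn EA (fun p : ℕ × Fm × ℕ => p.2.2 = 2) Guard := gal_hard

end Pool.Agent.Results.MP_42f8a6_lc.Hard
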